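import Pool.Agent.Helper37K9.RN.StB
import Pool.Agent.Helper37K9.RN.MainA
import Pool.Agent.Y184.NT.Dom

/-!
The relation between the points of the generic fibre, for correspondences.
-/

set_option autoImplicit false
set_option linter.overlappingInstances false
set_option linter.unusedSectionVars false

open FF Polynomial Pool.Agent.W602.GT Pool.Agent.W603.LV Pool.Agent.Y184.NT Pool.Agent.Helper37K9.RN

namespace Pool.Agent.Helper44K9.RN

theorem stRel : StRel := by
  classical
  intro M K L Ω _ _ _ _ _ _ _ _ _ _ _ _ _ _ _ _ n N m x hM ω hω hω0 hreg hpg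
  have hessMK : Algebra.EssFiniteType M K := inferInstance
  have hessK : Algebra.EssFiniteType ℂ K := Algebra.EssFiniteType.comp ℂ M K
  have hessL : Algebra.EssFiniteType ℂ L := Pool.Agent.TH466.QG.ess_below (K := K)
  have hcL : CharZero L := charZero_of_injective_algebraMap (algebraMap ℂ L).injective
  have hK : Algebra.trdeg ℂ K = n := Pool.Agent.Y172.trdeg_up (K := M) hM
  have hL : Algebra.trdeg ℂ L = n := trdeg_below (K := K) hK
  obtain ⟨z, EM, hz, hEM⟩ := Pool.Agent.Y172.exists_crd (k := ℂ) (K := M) hM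
  choose EK hEK using fun i => Pool.Agent.Y172.exists_lift (k := ℂ) (K := M) (L := K) hM (EM i)
  have hzK : IsTranscendenceBasis ℂ (fun j => algebraMap M K (z j)) := hz.algebraMap_comp
  have hEKd := Pool.Agent.Y172.lift_dual hEM hEK
  obtain ⟨y, E, hy, hE⟩ := Pool.Agent.Y172.exists_crd (k := ℂ) (K := L) hL
  choose E' hE' using fun i => Pool.Agent.Y172.exists_lift (k := ℂ) (K := L) (L := K) hL (E i)
  have hEind : LinearIndependent K E' := lift_ind hE hE'
  have hωE : ω EM ≠ 0 := by
    intro h0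
    obtain ⟨D, hD⟩ := hω0
    apply hD
    rw [Pool.Agent.Y172.pluri_coord hz hEM hω D, h0, mul_zero]
  obtain ⟨W, hWdef⟩ : ∃ W : (Fin m → Fin N) → (Fin n → Derivation ℂ K K) → K,
    W = fun f => pull z ((∏ k, x (f k)) * ω EM) := ⟨_, rfl⟩
  have hWp : ∀ f, IsPluri 1 (W f) := fun f => by
    rw [hWdef]
    exact pull_pluri _ _
  have hWr : ∀ f (Q : Place ℂ K), Divisorial n Q → RegAt Q (W f) := by
    intro f Q hQ D hD
    rw [hWdef]
    have hp : IsPluri 1 (fun D => (∏ k, x (f k)) * ω D) := by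
      intro A D
      change (∏ k, x (f k)) * ω (fun i => ∑ j, A i j • D j) = _
      rw [hω A D]
      ring
    exact Pool.Agent.Y297.NT.t_Pull Pool.Agent.Y71.NT.t_abh M K n n hM hK z hz EM hEM
      (fun D => (∏ k, x (f k)) * ω D) hp (hreg f) Q hQ D hD
  obtain ⟨h, hhdef⟩ : ∃ h : K, h = pull z (ω EM) E' := ⟨_, rfl⟩
  have hh : h ≠ 0 := by
    rw [hhdef]
    exact mul_ne_zero (minor_ne hzK hEKd hEind) (by simpa using hωE)
  have hWE : ∀ f, W f E' = (∏ k, algebraMap M K (x (f k))) * h := by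
    intro f
    rw [hWdef, hhdef]
    simp only [pull]
    rw [map_mul, map_prod]
    ring
  have htrc : ∀ f : Fin m → Fin N,
      Algebra.trace L K ((∏ k, algebraMap M K (x (f k))) * h) = 0 := fun f => by
    rw [← hWE]
    exact Pool.Agent.Y692.NT.t_Tr L K n hL hpg _ (hWp f) (hWr f) E E' hE'
  refine ⟨fun σ => σ h, fun σ => (map_ne_zero σ).2 hh, fun P hP =>
    relation_of_monomials (z := fun (σ : K →ₐ[L] Ω) (i : Fin N) => σ (algebraMap M K (x i)))
      (fun f => ?_) hP⟩
  have h1 := trace_eq_sum_embeddings Ω (K := L) (x := (∏ k, algebraMap M K (x (f k))) * h)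
  rw [htrc f, map_zero] at h1
  rw [h1]
  refine Finset.sum_congr rfl fun σ _ => ?_
  rw [map_mul, map_prod, mul_comm]

end Pool.Agent.Helper44K9.RN
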