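import Pool.Agent.Helper37K9.RN.St

/-!
A field `B` between `L` and `L'(T)` with `B ∩ L' = L` (statement StDisj of Helper37K9/RN).
-/

set_option autoImplicit false

open Polynomial

namespace Pool.Agent.Helper44K9.RN

open Pool.Agent.Helper37K9.RN

theorem stDisj : StDisj := by
  intro L L' _ _ _ _ _ _ B _ hB
  obtain ⟨θ, hθ⟩ := Field.exists_primitive_element L L'
  set R := RatFunc L' with hR
  have hint : IsIntegral L θ := IsIntegral.of_finite L θ
  have hint' : IsIntegral L (algebraMap L' R θ) := hint.algebraMap
  have hintB : IsIntegral B (algebraMap L' R θ) := hint'.tower_top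
  set q := minpoly B (algebraMap L' R θ) with hq
  have hqm : q.Monic := minpoly.monic hintB
  have hdvd : q.map (algebraMap B R) ∣ ((minpoly L θ).map (algebraMap L L')).map
      (algebraMap L' R) := by
    have h1 : q ∣ (minpoly L θ).map (algebraMap L B) := by
      apply minpoly.dvd
      rw [aeval_map_algebraMap, aeval_algebraMap_apply, minpoly.aeval, map_zero]
    have h2 := Polynomial.map_dvd (algebraMap B R) h1
    rwa [Polynomial.map_map, ← IsScalarTower.algebraMap_eq, IsScalarTower.algebraMap_eq L L' R,
      ← Polynomial.map_map] at h2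
  have hsp : ((minpoly L θ).map (algebraMap L L')).Splits := Normal.splits inferInstance θ
  have hp0 : ((minpoly L θ).map (algebraMap L L')).map (algebraMap L' R) ≠ 0 :=
    ((minpoly.monic hint).map _).map _ |>.ne_zero
  have hqs : (q.map (algebraMap B R)).Splits := (hsp.map (algebraMap L' R)).of_dvd hp0 hdvd
  have hroot : ∀ a ∈ (q.map (algebraMap B R)).roots, a ∈ (algebraMap L' R).range := by
    intro a ha
    have h1 : a ∈ (((minpoly L θ).map (algebraMap L L')).map (algebraMap L' R)).roots :=
      Multiset.mem_of_le (Polynomial.roots.le_of_dvd hp0 hdvd) ha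
    rw [hsp.roots_map] at h1
    obtain ⟨b, -, hb⟩ := Multiset.mem_map.1 h1
    exact ⟨b, hb⟩
  have hlift : q.map (algebraMap B R) ∈ Polynomial.lifts (algebraMap L' R) := by
    rw [hqs.eq_prod_roots_of_monic (hqm.map _)]
    refine multiset_prod_mem _ ?_
    intro g hg
    obtain ⟨a, ha, rfl⟩ := Multiset.mem_map.1 hg
    obtain ⟨b, hb⟩ := hroot a ha
    rw [← hb]
    exact ⟨X - C b, by simp⟩
  have hcoef : ∀ i, q.coeff i ∈ (algebraMap L B).range := by
    intro i
    rw [Polynomial.lifts_iff_coeff_lifts] at hlift
    obtain ⟨l, hl⟩ := hlift i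
    rw [coeff_map] at hl
    have h1 : algebraMap L' R l ∈ B := by
      rw [hl]
      exact (q.coeff i).2
    obtain ⟨m, hm⟩ := hB l h1
    refine ⟨m, ?_⟩
    apply Subtype.ext
    change algebraMap L R m = _
    rw [IsScalarTower.algebraMap_apply L L' R, hm, hl]
    rfl
  have hq2 : q ∈ Polynomial.lifts (algebraMap L B) := by
    rw [Polynomial.lifts_iff_coeff_lifts]
    exact hcoef
  obtain ⟨q0, hq0, hdeg, hmon⟩ := Polynomial.lifts_and_natDegree_eq_and_monic hq2 hqm
  have h0 : aeval θ q0 = 0 := by
    apply (algebraMap L' R).injective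
    rw [map_zero, ← aeval_algebraMap_apply, ← aeval_map_algebraMap B, hq0]
    exact minpoly.aeval _ _
  calc Module.finrank L L' = (minpoly L θ).natDegree := by
        rw [← IntermediateField.adjoin.finrank hint, hθ, IntermediateField.finrank_top']
    _ ≤ q0.natDegree := natDegree_le_of_dvd (minpoly.dvd L θ h0) hmon.ne_zero
    _ = q.natDegree := hdeg
    _ ≤ Module.finrank B R := minpoly.natDegree_le _

end Pool.Agent.Helper44K9.RN
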