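import Pool.Agent.Helper37K9.RN.St
import Pool.Agent.Y944.NT.VertG

/-!
The residue field of a place of `L(T)` which is not trivial on `L` is ruled
(statement StRuled of Helper37K9/RN).
-/

set_option autoImplicit false

open FF Polynomial Pool.Agent.W602.GT

namespace Pool.Agent.Helper44K9.RN

open Pool.Agent.Helper37K9.RN Pool.Agent.Y184.NT Pool.Agent.Y721.NT Pool.Agent.Y944.NT

section

variable {L R : Type} [Field L] [Algebra ℂ L] [Field R] [Algebra ℂ R] [Algebra L R]
  [IsScalarTower ℂ L R] (w : Place ℂ R)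

theorem reg_of_ord {f : R} (h : w.ord f = 0) : w.Reg f := Or.inr h.ge

theorem red_zpow' {f : R} (h0 : f ≠ 0) (h : w.ord f = 0) (m : ℤ) :
    w.red (f ^ m) = w.red f ^ m := by
  cases m with
  | ofNat m =>
    simp only [Int.ofNat_eq_natCast, zpow_natCast]
    exact w.red_pow (reg_of_ord w h) m
  | negSucc m =>
    rw [zpow_negSucc, zpow_negSucc]
    have h1 : w.ord (f ^ (m + 1)) = 0 := by rw [w.ord_pow, h, mul_zero]
    rw [(red_inv w (pow_ne_zero _ h0) h1).2, w.red_pow (reg_of_ord w h)]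

/-- the residues of the monomials `c τ ^ j` -/
theorem exists_rho {τ : R} (hτ : τ ≠ 0) : ∃ ρ : w.RF, ∀ c : L, c ≠ 0 → ∀ j : ℤ,
    w.ord (algebraMap L R c * τ ^ j) = 0 →
    w.red (algebraMap L R c * τ ^ j) ∈ IntermediateField.adjoin (resField (L := L) w) {ρ} := by
  let H : AddSubgroup ℤ :=
    { carrier := {j | ∃ c : L, c ≠ 0 ∧ w.ord (algebraMap L R c) = j * w.ord τ}
      zero_mem' := ⟨1, one_ne_zero, by rw [map_one, w.ord_one, zero_mul]⟩
      add_mem' := by
        rintro i j ⟨c, hc, hci⟩ ⟨d, hd, hdj⟩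
        refine ⟨c * d, mul_ne_zero hc hd, ?_⟩
        rw [map_mul, w.ord_mul ((_root_.map_ne_zero _).2 hc) ((_root_.map_ne_zero _).2 hd), hci,
          hdj, add_mul]
      neg_mem' := by
        rintro i ⟨c, hc, hci⟩
        exact ⟨c⁻¹, inv_ne_zero hc, by rw [map_inv₀, w.ord_inv, hci, neg_mul]⟩ }
  obtain ⟨k, hk⟩ := Int.subgroup_cyclic H
  have hkH : k ∈ H := by
    rw [hk]
    exact AddSubgroup.subset_closure rfl
  obtain ⟨b, hb, hbk⟩ := hkH
  have hb' : algebraMap L R b ≠ 0 := (_root_.map_ne_zero _).2 hb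
  have hρ0 : τ ^ k / algebraMap L R b ≠ 0 := div_ne_zero (zpow_ne_zero _ hτ) hb'
  have hρo : w.ord (τ ^ k / algebraMap L R b) = 0 := by
    rw [w.ord_div (zpow_ne_zero _ hτ) hb', w.ord_zpow, hbk, sub_self]
  refine ⟨w.red (τ ^ k / algebraMap L R b), fun c hc j hj => ?_⟩
  have hc' : algebraMap L R c ≠ 0 := (_root_.map_ne_zero _).2 hc
  have hcj : w.ord (algebraMap L R c) + j * w.ord τ = 0 := by
    rw [w.ord_mul hc' (zpow_ne_zero _ hτ), w.ord_zpow] at hj
    exact hj
  have hjH : -j ∈ H := ⟨c, hc, by linarith⟩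
  rw [hk, AddSubgroup.mem_closure_singleton] at hjH
  obtain ⟨m, hm⟩ := hjH
  have hm' : j = k * (-m) := by
    rw [smul_eq_mul] at hm
    linarith
  have hbm : algebraMap L R b ^ (-m) ≠ 0 := zpow_ne_zero _ hb'
  have h1 : algebraMap L R c * τ ^ j =
      algebraMap L R (c * b ^ (-m)) * (τ ^ k / algebraMap L R b) ^ (-m) := by
    rw [map_mul, map_zpow₀, div_zpow, ← zpow_mul, ← hm']
    field_simp
  have h2 : w.ord (algebraMap L R (c * b ^ (-m))) = 0 := by
    rw [map_mul, map_zpow₀, w.ord_mul hc' hbm, w.ord_zpow, hbk]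
    rw [hm'] at hcj
    linarith
  have h3 : w.ord ((τ ^ k / algebraMap L R b) ^ (-m)) = 0 := by
    rw [w.ord_zpow, hρo, mul_zero]
  rw [h1, w.red_mul (reg_of_ord w h2) (reg_of_ord w h3), red_zpow' w hρ0 hρo]
  refine mul_mem ?_ (zpow_mem (IntermediateField.mem_adjoin_simple_self _ _) _)
  exact IntermediateField.algebraMap_mem (IntermediateField.adjoin (resField (L := L) w) _)
    (⟨_, c * b ^ (-m), reg_of_ord w h2, rfl⟩ : resField (L := L) w)

variable (L) in
/-- products of a constant, a power of `τ` and a unit with residue in `S` -/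
def Good (S : Subfield w.RF) (τ f : R) : Prop :=
  ∃ c : L, c ≠ 0 ∧ ∃ (j : ℤ) (ε : R), ε ≠ 0 ∧ w.ord ε = 0 ∧ w.red ε ∈ S ∧
    f = algebraMap L R c * τ ^ j * ε

variable {w} {S : Subfield w.RF} {τ : R}

omit [Algebra ℂ L] [IsScalarTower ℂ L R] in
theorem Good.mul (hτ : τ ≠ 0) {f g : R} (hf : Good L w S τ f) (hg : Good L w S τ g) :
    Good L w S τ (f * g) := by
  obtain ⟨c, hc, j, ε, hε, ho, hS, rfl⟩ := hf
  obtain ⟨c', hc', j', ε', hε', ho', hS', rfl⟩ := hg
  refine ⟨c * c', mul_ne_zero hc hc', j + j', ε * ε', mul_ne_zero hε hε', ?_, ?_, ?_⟩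
  · rw [w.ord_mul hε hε', ho, ho', add_zero]
  · rw [w.red_mul (reg_of_ord w ho) (reg_of_ord w ho')]
    exact S.mul_mem hS hS'
  · rw [map_mul, zpow_add₀ hτ]
    ring

omit [Algebra ℂ L] [IsScalarTower ℂ L R] in
theorem Good.inv {f : R} (hf : Good L w S τ f) : Good L w S τ f⁻¹ := by
  obtain ⟨c, hc, j, ε, hε, ho, hS, rfl⟩ := hf
  refine ⟨c⁻¹, inv_ne_zero hc, -j, ε⁻¹, inv_ne_zero hε, ?_, ?_, ?_⟩
  · rw [w.ord_inv, ho, neg_zero]
  · rw [(red_inv w hε ho).2]
    exact S.inv_mem hS
  · rw [map_inv₀, zpow_neg, mul_inv, mul_inv]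

omit [Algebra ℂ L] [IsScalarTower ℂ L R] in
theorem good_C {c : L} (hc : c ≠ 0) : Good L w S τ (algebraMap L R c) :=
  ⟨c, hc, 0, 1, one_ne_zero, w.ord_one, by rw [w.red_one]; exact S.one_mem, by simp⟩

omit [Algebra ℂ L] [IsScalarTower ℂ L R] in
theorem good_tau : Good L w S τ τ :=
  ⟨1, one_ne_zero, 1, 1, one_ne_zero, w.ord_one, by rw [w.red_one]; exact S.one_mem, by simp⟩

omit [Algebra ℂ L] [IsScalarTower ℂ L R] in
theorem Good.red_mem (hτ : τ ≠ 0)
    (hS : ∀ c : L, c ≠ 0 → ∀ j : ℤ, w.ord (algebraMap L R c * τ ^ j) = 0 →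
      w.red (algebraMap L R c * τ ^ j) ∈ S) {f : R} (hf : Good L w S τ f) (hr : w.Reg f) :
    w.red f ∈ S := by
  obtain ⟨c, hc, j, ε, hε, ho, hSε, rfl⟩ := hf
  have hc' : algebraMap L R c ≠ 0 := (_root_.map_ne_zero _).2 hc
  have h1 : algebraMap L R c * τ ^ j ≠ 0 := mul_ne_zero hc' (zpow_ne_zero _ hτ)
  have h2 := (w.reg_iff (mul_ne_zero h1 hε)).1 hr
  rcases h2.eq_or_lt with h3 | h3
  · have h4 : w.ord (algebraMap L R c * τ ^ j) = 0 := by
      rw [w.ord_mul h1 hε, ho, add_zero] at h3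
      exact h3.symm
    rw [w.red_mul (reg_of_ord w h4) (reg_of_ord w ho)]
    exact S.mul_mem (hS c hc j h4) hSε
  · rw [(w.red_eq_zero_iff hr).2 (Or.inr h3)]
    exact S.zero_mem

omit [Algebra ℂ L] [IsScalarTower ℂ L R] in
/-- `τ + c` with `w.ord (τ + c) ≤ w.ord τ` -/
theorem good_add (hτ : τ ≠ 0)
    (hS : ∀ c : L, c ≠ 0 → ∀ j : ℤ, w.ord (algebraMap L R c * τ ^ j) = 0 →
      w.red (algebraMap L R c * τ ^ j) ∈ S) {c : L} (h0 : τ + algebraMap L R c ≠ 0)
    (hle : w.ord (τ + algebraMap L R c) ≤ w.ord τ) : Good L w S τ (τ + algebraMap L R c) := by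
  by_cases hc : c = 0
  · rw [hc, map_zero, add_zero]
    exact good_tau
  have hc' : algebraMap L R c ≠ 0 := (_root_.map_ne_zero _).2 hc
  rcases hle.eq_or_lt with heq | hlt
  · -- `τ (1 + c / τ)`
    have h1 : τ + algebraMap L R c = τ * (1 + algebraMap L R c * τ⁻¹) := by
      field_simp
    have hε0 : 1 + algebraMap L R c * τ⁻¹ ≠ 0 := by
      intro h
      rw [h1, h, mul_zero] at h0
      exact h0 rfl
    have hεo : w.ord (1 + algebraMap L R c * τ⁻¹) = 0 := by
      rw [h1, w.ord_mul hτ hε0] at heq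
      linarith
    have hreg : w.Reg (algebraMap L R c * τ⁻¹) := by
      have h2 : algebraMap L R c * τ⁻¹ = (1 + algebraMap L R c * τ⁻¹) + (-1) := by ring
      rw [h2]
      exact w.reg_add (reg_of_ord w hεo) (w.reg_neg w.reg_one)
    refine ⟨1, one_ne_zero, 1, 1 + algebraMap L R c * τ⁻¹, hε0, hεo, ?_, ?_⟩
    · rw [w.red_add w.reg_one hreg, w.red_one]
      refine S.add_mem S.one_mem ?_
      have h3 : Good L w S τ (algebraMap L R c * τ⁻¹) := (good_C hc).mul hτ good_tau.inv
      exact h3.red_mem hτ hS hreg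
    · rw [map_one, zpow_one, one_mul, h1]
  · -- `c (1 + τ / c)`
    have h2 : w.ord (algebraMap L R c) < w.ord τ := by
      by_contra hcon
      push Not at hcon
      have h3 := w.ord_add hτ hc' h0
      rw [min_eq_left hcon] at h3
      omega
    have h1 : τ + algebraMap L R c = algebraMap L R c * (1 + τ / algebraMap L R c) := by
      field_simp
      ring
    have hq0 : τ / algebraMap L R c ≠ 0 := div_ne_zero hτ hc'
    have hqo : 0 < w.ord (τ / algebraMap L R c) := by
      rw [w.ord_div hτ hc']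
      omega
    have h4 := w.ord_add_eq (f := 1) (g := τ / algebraMap L R c) one_ne_zero hq0
      (by rw [w.ord_one]; exact hqo)
    rw [w.ord_one] at h4
    have hreg : w.Reg (τ / algebraMap L R c) := Or.inr hqo.le
    refine ⟨c, hc, 0, 1 + τ / algebraMap L R c, h4.1, h4.2, ?_, ?_⟩
    · rw [w.red_add w.reg_one hreg, w.red_one, (w.red_eq_zero_iff hreg).2 (Or.inr hqo), add_zero]
      exact S.one_mem
    · rw [zpow_zero, mul_one, h1]

end

theorem stRuled (hNLG : StNLG) : StRuled := by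
  classical
  intro L K _ _ _ _ _ n N hn htr htrK ω hpl hreg hne x hx w φ hφ i0 hi0 u hu hur hG0 hG1 l0 hl0
  by_contra hord
  let R := RatFunc L
  set M := resField (L := L) w with hM
  -- few algebraically independent residues
  have hfew : ∀ m : Fin n → M, ¬ AlgebraicIndependent ℂ m := by
    intro m hm
    apply hord
    refine trivial_of_indep w htr (fun i => ((m i : M) : w.RF)) (fun i => (m i).2) ?_ l0
    exact hm.map' (f := M.val) M.val.injective
  obtain ⟨N', z, hN, hz⟩ := exists_small hfew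
  -- the roots
  have hTa : ∀ a : L, (RatFunc.X : R) - algebraMap L R a ≠ 0 := by
    intro a h
    have h1 : algebraMap L[X] R (X - C a) = 0 := by
      rw [map_sub, RatFunc.algebraMap_X, RatFunc.algebraMap_C]
      exact h
    exact X_sub_C_ne_zero a ((map_eq_zero_iff _ (RatFunc.algebraMap_injective L)).1 h1)
  obtain ⟨a0, ha0, hmax⟩ : ∃ a0 ∈ insert (0 : L) (Finset.univ.biUnion fun j : Fin N =>
      (φ j).roots.toFinset), ∀ a ∈ insert (0 : L) (Finset.univ.biUnion fun j : Fin N =>
      (φ j).roots.toFinset), w.ord ((RatFunc.X : R) - algebraMap L R a) ≤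
      w.ord ((RatFunc.X : R) - algebraMap L R a0) :=
    Finset.exists_max_image _ (fun a => w.ord ((RatFunc.X : R) - algebraMap L R a))
      ⟨0, Finset.mem_insert_self _ _⟩
  set τ : R := RatFunc.X - algebraMap L R a0 with hτ
  have hτ0 : τ ≠ 0 := hTa a0
  obtain ⟨ρ, hρ⟩ := exists_rho (L := L) w hτ0
  set S : Subfield w.RF := (IntermediateField.adjoin M {ρ}).toSubfield with hS
  have hS' : ∀ c : L, c ≠ 0 → ∀ j : ℤ, w.ord (algebraMap L R c * τ ^ j) = 0 →
      w.red (algebraMap L R c * τ ^ j) ∈ S := hρ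
  have hgood : ∀ j, φ j ≠ 0 → Good L w S τ (algebraMap L[X] R (φ j)) := by
    intro j hj
    rw [(hφ j).eq_prod_roots, map_mul, RatFunc.algebraMap_C, map_multiset_prod,
      Multiset.map_map]
    refine (good_C (leadingCoeff_ne_zero.2 hj)).mul hτ0 ?_
    refine Multiset.prod_induction (fun f => Good L w S τ f) _ (fun a b => Good.mul hτ0) ?_ ?_
    · have := good_C (L := L) (w := w) (S := S) (τ := τ) one_ne_zero
      rwa [map_one] at this
    · intro f hf
      obtain ⟨a, ha, rfl⟩ := Multiset.mem_map.1 hf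
      have h1 := hmax a (Finset.mem_insert_of_mem (Finset.mem_biUnion.2
        ⟨j, Finset.mem_univ _, Multiset.mem_toFinset.2 ha⟩))
      have h2 : (RatFunc.X : R) - algebraMap L R a = τ + algebraMap L R (a0 - a) := by
        rw [hτ, map_sub]
        ring
      have h3 : (algebraMap L[X] R ∘ fun a => X - C a) a = τ + algebraMap L R (a0 - a) := by
        rw [← h2]
        simp only [Function.comp]
        rw [map_sub, RatFunc.algebraMap_X, RatFunc.algebraMap_C]
        rfl
      rw [h3]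
      rw [h2] at h1
      refine good_add hτ0 hS' ?_ h1
      rw [← h2]
      exact hTa a
  have hured : ∀ j, w.red (u j) ∈ IntermediateField.adjoin M {ρ} := by
    intro j
    by_cases hj : φ j = 0
    · rw [hu j, hj, map_zero, zero_div, w.red_zero]
      exact zero_mem _
    · have h1 : Good L w S τ (u j) := by
        rw [hu j, div_eq_mul_inv]
        exact (hgood j hj).mul hτ0 (hgood i0 hi0).inv
      exact h1.red_mem hτ0 hS' (hur j)
  -- the residues
  set ub : Fin N → w.RF := fun k => w.red (u k) with hub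
  have hr0 : ∀ G : MvPolynomial (Fin N) ℂ, MvPolynomial.aeval x G = 0 →
      MvPolynomial.aeval ub G = 0 := by
    intro G hG
    obtain ⟨h1, h2⟩ := red_aeval w u hur G
    change MvPolynomial.aeval (fun i => w.red (u i)) G = 0
    rw [← h2, w.red_eq_zero_iff h1]
    rcases hG0 G hG with h | h
    · exact Or.inl h
    · exact Or.inr (by omega)
  have hr1 : ∀ G : MvPolynomial (Fin N) ℂ, MvPolynomial.aeval x G ≠ 0 →
      MvPolynomial.aeval ub G ≠ 0 := by
    intro G hG h3
    obtain ⟨h1, h2⟩ := hG1 G hG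
    have h4 := (red_aeval w u hur G).2
    rw [show MvPolynomial.aeval (fun i => w.red (u i)) G = 0 from h3] at h4
    exact w.red_ne_zero h1 h2 h4
  by_cases ht : IsAlgebraic M ρ
  · let A := algebraicClosure M w.RF
    have hmem : ∀ k, ub k ∈ A := by
      intro k
      have h1 : IntermediateField.adjoin M {ρ} ≤ A := by
        rw [IntermediateField.adjoin_le_iff, Set.singleton_subset_iff]
        exact mem_algebraicClosure_iff.2 ht
      exact h1 (hured k)
    have hv : ∀ G : MvPolynomial (Fin N) ℂ, ((MvPolynomial.aeval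
        (fun k => (⟨ub k, hmem k⟩ : A)) G : A) : w.RF) = MvPolynomial.aeval ub G := by
      intro G
      exact (MvPolynomial.comp_aeval_apply (f := fun k => (⟨ub k, hmem k⟩ : A))
        (A.restrictScalars ℂ).val G)
    obtain ⟨ψ, -⟩ := exists_hom hx (fun k => (⟨ub k, hmem k⟩ : A))
      (fun G hG => Subtype.ext (by rw [hv, hr0 G hG]; rfl))
      (fun G hG h => hr1 G hG (by rw [← hv, h]; rfl))
    exact no_hom (M := M) (Ω := A) htrK hN hz ψ fun f => Algebra.IsAlgebraic.isAlgebraic _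
  · have ht' : Function.Injective (Polynomial.aeval ρ : M[X] →ₐ[M] w.RF) :=
      transcendental_iff_injective.1 ht
    let θ : RatFunc M →ₐ[M] w.RF := RatFunc.liftAlgHom (Polynomial.aeval ρ) (by
      intro p hp
      rw [Submonoid.mem_comap, mem_nonZeroDivisors_iff_ne_zero]
      exact fun h => (nonZeroDivisors.ne_zero hp) (ht' (by rw [h, map_zero])))
    have hθX : θ RatFunc.X = ρ := by
      change RatFunc.liftAlgHom _ _ RatFunc.X = ρ
      rw [RatFunc.liftAlgHom_apply, RatFunc.num_X, RatFunc.denom_X, map_one, div_one, aeval_X]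
    let θ' : RatFunc M →ₐ[ℂ] w.RF := θ.restrictScalars ℂ
    have hrange : ∀ y ∈ IntermediateField.adjoin M {ρ}, ∃ Y : RatFunc M, θ Y = y := by
      intro y hy
      have h1 : IntermediateField.adjoin M {ρ} ≤ θ.fieldRange := by
        rw [IntermediateField.adjoin_le_iff, Set.singleton_subset_iff]
        exact ⟨RatFunc.X, hθX⟩
      exact h1 hy
    choose Y hY using fun j => hrange (ub j) (hured j)
    have hv : ∀ G : MvPolynomial (Fin N) ℂ, θ' (MvPolynomial.aeval Y G) =
        MvPolynomial.aeval ub G := by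
      intro G
      have h2 : ub = fun k => θ' (Y k) := by
        funext k
        exact (hY k).symm
      rw [h2]
      exact MvPolynomial.comp_aeval_apply (f := Y) θ' G
    obtain ⟨ψ, -⟩ := exists_hom hx Y
      (fun G hG => (map_eq_zero_iff θ' θ'.injective).1 ((hv G).trans (hr0 G hG)))
      (fun G hG h => hr1 G hG (by rw [← hv, h, map_zero]))
    refine no_hom (M := M) (Ω := RatFunc M) htrK hN hz ψ fun f => ?_
    obtain ⟨c, hc⟩ := hNLG K M n N' htrK z hz ω hpl hreg hne ψ f
    rw [hc]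
    exact isAlgebraic_algebraMap _

end Pool.Agent.Helper44K9.RN
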