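import Pool.Agent.Helper37K9.RN.StB
import Pool.Agent.R867.Mov.Spec
import Pool.Agent.Y172.Cov3

/-!
A variety which is dominated by a projective space of any dimension is unirational.
-/

set_option autoImplicit false
set_option linter.overlappingInstances false

open MvPolynomial Pool.Agent.Helper37K9.RN

namespace Pool.Agent.Helper44K9.RN.Cut

/-- the elements are algebraic over a transcendence basis -/
theorem rel {k K ι : Type} [Field k] [Field K] [Algebra k K] {y : ι → K}
    (hy : IsTranscendenceBasis k y) (f : K) (hf : f ≠ 0) :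
    ∃ Q : Polynomial (MvPolynomial ι k), Q.coeff 0 ≠ 0 ∧
      Polynomial.eval₂ ((aeval y : MvPolynomial ι k →ₐ[k] K) : MvPolynomial ι k →+* K) f Q = 0 := by
  have h1 := hy.isAlgebraic
  obtain ⟨p, hp0, hp⟩ := (h1.isAlgebraic f).exists_nonzero_coeff_and_aeval_eq_zero
    (mem_nonZeroDivisors_of_ne_zero hf)
  let e := hy.1.aevalEquiv
  have he : ∀ a, algebraMap _ K a = aeval y (e.symm a) := by
    intro a
    have h2 := hy.1.algebraMap_aevalEquiv (e.symm a)
    rw [← h2]
    congr 1
    exact (e.apply_symm_apply a).symm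
  refine ⟨p.map (e.symm : _ →+* _), ?_, ?_⟩
  · rw [Polynomial.coeff_map]
    intro h0
    apply hp0
    have h3 : e.symm (p.coeff 0) = 0 := h0
    exact (map_eq_zero_iff _ e.symm.injective).1 h3
  · rw [Polynomial.eval₂_map, ← hp, Polynomial.aeval_def]
    congr 1
    ext a
    exact (he a).symm

/-- elements which span are independent -/
theorem indep {n : ℕ} (y : Fin n → FractionRing (MvPolynomial (Fin n) ℂ))
    (h : ∀ j, IsAlgebraic (Algebra.adjoin ℂ (Set.range y))
      (algebraMap (MvPolynomial (Fin n) ℂ) (FractionRing (MvPolynomial (Fin n) ℂ)) (X j))) :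
    AlgebraicIndependent ℂ y := by
  have halg : Algebra.IsAlgebraic (Algebra.adjoin ℂ (Set.range y))
      (FractionRing (MvPolynomial (Fin n) ℂ)) := by
    have hP : ∀ p : MvPolynomial (Fin n) ℂ, IsAlgebraic (Algebra.adjoin ℂ (Set.range y))
        (algebraMap (MvPolynomial (Fin n) ℂ) (FractionRing (MvPolynomial (Fin n) ℂ)) p) := by
      intro p
      induction p using MvPolynomial.induction_on with
      | C a =>
        have h1 : algebraMap (MvPolynomial (Fin n) ℂ) (FractionRing (MvPolynomial (Fin n) ℂ))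
            (C a) = algebraMap (Algebra.adjoin ℂ (Set.range y))
              (FractionRing (MvPolynomial (Fin n) ℂ)) (algebraMap ℂ _ a) := by
          rw [← IsScalarTower.algebraMap_apply, ← MvPolynomial.algebraMap_eq,
            ← IsScalarTower.algebraMap_apply]
        rw [h1]
        exact isAlgebraic_algebraMap _
      | add p q hp hq =>
        rw [map_add]
        exact hp.add hq
      | mul_X p i hp =>
        rw [map_mul]
        exact hp.mul (h i)
    refine ⟨fun f => ?_⟩
    obtain ⟨p, q, hq, rfl⟩ := IsFractionRing.div_surjective (A := MvPolynomial (Fin n) ℂ) f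
    rw [div_eq_mul_inv]
    exact (hP p).mul (hP q).inv
  have htr : Algebra.trdeg ℂ (FractionRing (MvPolynomial (Fin n) ℂ)) = n := by
    have h1 : IsTranscendenceBasis ℂ fun i : Fin n =>
        algebraMap (MvPolynomial (Fin n) ℂ) (FractionRing (MvPolynomial (Fin n) ℂ)) (X i) :=
      by
        have h2 : Algebra.IsAlgebraic (MvPolynomial (Fin n) ℂ)
            (FractionRing (MvPolynomial (Fin n) ℂ)) :=
          IsLocalization.isAlgebraic _ (nonZeroDivisors (MvPolynomial (Fin n) ℂ))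
        exact (IsTranscendenceBasis.mvPolynomial (Fin n) ℂ).algebraMap_comp
    rw [← h1.cardinalMk_eq_trdeg]
    simp
  exact (Algebra.IsAlgebraic.isTranscendenceBasis_of_le_trdeg_of_finite ℂ y
    (by rw [htr]; simp)).1

/-- the point where a polynomial does not vanish -/
theorem exists_pt {N : ℕ} {G : MvPolynomial (Fin N) ℂ} (hG : G ≠ 0) : ∃ v, eval v G ≠ 0 := by
  by_contra hcon
  push Not at hcon
  exact hG (MvPolynomial.funext fun v => by rw [hcon v, map_zero])

/-- a transcendence basis from a larger set -/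
theorem exists_J {F : Type} [Field F] [Algebra ℂ F] {n N : ℕ} {z : Fin N → F} {y : Fin n → F}
    (hz : IsTranscendenceBasis ℂ z) (hy : AlgebraicIndependent ℂ y) :
    ∃ (J : Finset (Fin N)), J.card = n ∧
      IsTranscendenceBasis ℂ (Sum.elim y fun j : {j : Fin N // j ∉ J} => z j) := by
  classical
  have h1 : Algebra.IsAlgebraic (Algebra.adjoin ℂ (Set.range y ∪ Set.range z)) F := by
    rw [isAlgebraic_iff_exists_isTranscendenceBasis_subset]
    exact ⟨Set.range z, Set.subset_union_right, hz.to_subtype_range⟩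
  obtain ⟨u, hsu, hut, hu⟩ := exists_isTranscendenceBasis_between (R := ℂ) (Set.range y)
    (Set.range y ∪ Set.range z) Set.subset_union_left hy.to_subtype_range
  have hzi : Function.Injective z := hz.1.injective
  have hyi : Function.Injective y := hy.injective
  obtain ⟨J, hJ⟩ : ∃ J : Finset (Fin N), J = Finset.univ.filter fun j =>
    ¬ (z j ∈ u ∧ z j ∉ Set.range y) := ⟨_, rfl⟩
  have hJm : ∀ j, j ∉ J ↔ (z j ∈ u ∧ z j ∉ Set.range y) := by
    intro j
    rw [hJ, Finset.mem_filter, not_and_or, not_not, or_iff_right (fun h => h (Finset.mem_univ _))]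
  have hb : IsTranscendenceBasis ℂ (Sum.elim y fun j : {j : Fin N // j ∉ J} => z j) := by
    refine IsTranscendenceBasis.of_subtype_range ?_ ?_
    · rintro (i | i) (j | j) hij
      · exact congrArg Sum.inl (hyi hij)
      · exact (((hJm j).1 j.2).2 ⟨i, hij⟩).elim
      · exact (((hJm i).1 i.2).2 ⟨j, hij.symm⟩).elim
      · exact congrArg Sum.inr (Subtype.ext (hzi hij))
    · have h3 : Set.range (Sum.elim y fun j : {j : Fin N // j ∉ J} => z j) = u := by
        ext a
        constructor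
        · rintro ⟨i | i, rfl⟩
          · exact hsu ⟨i, rfl⟩
          · exact ((hJm i).1 i.2).1
        · intro ha
          rcases hut ha with ⟨i, rfl⟩ | ⟨j, rfl⟩
          · exact ⟨Sum.inl i, rfl⟩
          · by_cases hj : z j ∈ Set.range y
            · obtain ⟨i, hi⟩ := hj
              exact ⟨Sum.inl i, hi⟩
            · exact ⟨Sum.inr ⟨j, (hJm j).2 ⟨ha, hj⟩⟩, rfl⟩
      rw [h3]
      exact hu
  refine ⟨J, ?_, hb⟩
  have h4 := hb.cardinalMk_eq hz
  rw [Cardinal.mk_fintype, Cardinal.mk_fintype, Nat.cast_inj, Fintype.card_sum,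
    Fintype.card_subtype_compl] at h4
  have h5 : J.card ≤ N := by
    simpa using Finset.card_le_univ J
  simp at h4
  omega

/-- the specialisation of finitely many functions -/
theorem spec {A F ι κ : Type} [CommRing A] [IsDomain A] [Algebra ℂ A] [Field F] [Algebra A F]
    [Algebra ℂ F] [IsScalarTower ℂ A F] [IsFractionRing A F] [Finite ι] [Fintype κ] (W : ι → F)
    (a : κ → MvPolynomial ι ℂ) (ha : ∀ j, aeval W (a j) ≠ 0) :
    ∃ g : A, g ≠ 0 ∧ ∀ (E : Type) [Field E] [Algebra ℂ E] (s : A →ₐ[ℂ] E), s g ≠ 0 →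
      ∃ V : ι → E, (∀ i b, W i = algebraMap A F b → V i = s b) ∧
        (∀ H : MvPolynomial ι ℂ, aeval W H = 0 → aeval V H = 0) ∧ ∀ j, aeval V (a j) ≠ 0 := by
  classical
  obtain ⟨q, hq⟩ := IsLocalization.exist_integer_multiples_of_finite (nonZeroDivisors A) W
  have hq0 : (q : A) ≠ 0 := nonZeroDivisors.ne_zero q.2
  choose p hp using hq
  have hqF : algebraMap A F q ≠ 0 := by
    rwa [Ne, map_eq_zero_iff _ (IsFractionRing.injective A F)]
  have hqu : IsUnit ((Algebra.ofId A F).restrictScalars ℂ (q : A)) := by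
    change IsUnit (algebraMap A F q)
    exact isUnit_iff_ne_zero.2 hqF
  obtain ⟨j, hj⟩ : ∃ j : Localization.Away (q : A) →ₐ[ℂ] F,
      ∀ b : A, j (algebraMap A _ b) = algebraMap A F b :=
    ⟨IsLocalization.Away.liftAlgHom (x := (q : A)) hqu, fun b =>
      IsLocalization.Away.lift_eq (q : A) hqu b⟩
  have hinj : Function.Injective j := by
    rw [injective_iff_map_eq_zero]
    intro r hr
    obtain ⟨n, b, hb⟩ := IsLocalization.Away.surj (q : A) r
    have h1 := congrArg j hb
    rw [map_mul, hr, zero_mul, hj] at h1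
    have h2 : b = 0 := (map_eq_zero_iff _ (IsFractionRing.injective A F)).1 h1.symm
    rw [h2, map_zero] at hb
    have h3 : IsUnit (algebraMap A (Localization.Away (q : A)) q ^ n) :=
      (IsLocalization.Away.algebraMap_isUnit (q : A)).pow n
    exact (IsUnit.mul_left_eq_zero h3).1 hb
  obtain ⟨U, hU⟩ : ∃ U : ι → Localization.Away (q : A), ∀ i, j (U i) = W i := by
    refine ⟨fun i => algebraMap A _ (p i) * IsLocalization.Away.invSelf (q : A), fun i => ?_⟩
    have h1 := congrArg j (IsLocalization.Away.mul_invSelf (S := Localization.Away (q : A))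
      (q : A))
    rw [map_mul, map_one, hj] at h1
    rw [map_mul, hj, hp, Algebra.smul_def, mul_right_comm, h1, one_mul]
  have hUe : ∀ H : MvPolynomial ι ℂ, j (aeval U H) = aeval W H := by
    intro H
    have h1 := MvPolynomial.comp_aeval_apply (φ := j) U H
    rw [h1]
    simp only [hU]
  have hg : ∀ k, ∃ (n : ℕ) (b : A), b ≠ 0 ∧
      aeval U (a k) * algebraMap A (Localization.Away (q : A)) q ^ n = algebraMap A _ b := by
    intro k
    obtain ⟨n, b, hb⟩ := IsLocalization.Away.surj (q : A) (aeval U (a k))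
    refine ⟨n, b, ?_, hb⟩
    intro h0
    have h1 := congrArg j hb
    rw [map_mul, map_pow, hj, hj, h0, map_zero, hUe] at h1
    exact mul_ne_zero (ha k) (pow_ne_zero _ hqF) h1
  choose n g hg0 hg using hg
  refine ⟨q * ∏ k, g k, mul_ne_zero hq0 (Finset.prod_ne_zero_iff.2 fun k _ => hg0 k), ?_⟩
  intro E _ _ s hs
  rw [map_mul, map_prod, mul_ne_zero_iff, Finset.prod_ne_zero_iff] at hs
  obtain ⟨hsq, hsg⟩ := hs
  have hsu : IsUnit (s (q : A)) := isUnit_iff_ne_zero.2 hsq
  obtain ⟨t, ht⟩ : ∃ t : Localization.Away (q : A) →ₐ[ℂ] E,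
      ∀ b : A, t (algebraMap A _ b) = s b :=
    ⟨IsLocalization.Away.liftAlgHom (x := (q : A)) hsu, fun b =>
      IsLocalization.Away.lift_eq (q : A) hsu b⟩
  have hte : ∀ H : MvPolynomial ι ℂ, t (aeval U H) = aeval (fun i => t (U i)) H := fun H =>
    MvPolynomial.comp_aeval_apply (φ := t) U H
  refine ⟨fun i => t (U i), fun i b hb => ?_, fun H hH => ?_, fun k => ?_⟩
  · have h1 : U i = algebraMap A _ b := by
      apply hinj
      rw [hU, hj, hb]
    change t (U i) = s b
    rw [h1, ht]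
  · have h1 : aeval U H = 0 := by
      apply hinj
      rw [hUe, hH, map_zero]
    rw [← hte, h1, map_zero]
  · rw [← hte]
    intro h0
    have h1 := congrArg t (hg k)
    rw [map_mul, h0, zero_mul, ht] at h1
    exact hsg k (Finset.mem_univ _) h1.symm

/-- polynomials with polynomial coefficients -/
theorem comp_eval₂ {K ι κ : Type} [Field K] [Algebra ℂ K] (ρ : ι → κ) (P : MvPolynomial κ ℂ)
    (W : κ → K) (Q : Polynomial (MvPolynomial ι ℂ)) :
    aeval W (Polynomial.eval₂ ((rename ρ : MvPolynomial ι ℂ →ₐ[ℂ] MvPolynomial κ ℂ) :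
      MvPolynomial ι ℂ →+* MvPolynomial κ ℂ) P Q) =
    Polynomial.eval₂ ((aeval (fun i => W (ρ i)) : MvPolynomial ι ℂ →ₐ[ℂ] K) :
      MvPolynomial ι ℂ →+* K) (aeval W P) Q := by
  have h1 := Polynomial.hom_eval₂ Q ((rename ρ : MvPolynomial ι ℂ →ₐ[ℂ] MvPolynomial κ ℂ) :
      MvPolynomial ι ℂ →+* MvPolynomial κ ℂ) ((aeval W : MvPolynomial κ ℂ →ₐ[ℂ] K) :
      MvPolynomial κ ℂ →+* K) P
  have h2 : ((aeval W : MvPolynomial κ ℂ →ₐ[ℂ] K) : MvPolynomial κ ℂ →+* K).comp
      ((rename ρ : MvPolynomial ι ℂ →ₐ[ℂ] MvPolynomial κ ℂ) :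
      MvPolynomial ι ℂ →+* MvPolynomial κ ℂ) =
      ((aeval (fun i => W (ρ i)) : MvPolynomial ι ℂ →ₐ[ℂ] K) : MvPolynomial ι ℂ →+* K) := by
    ext a
    · simp
    · simp
  rw [h2] at h1
  exact h1

/-- the specialisation -/
theorem core {L : Type} [Field L] [Algebra ℂ L] {n N M : ℕ} {x : Fin M → L}
    (hx : IntermediateField.adjoin ℂ (Set.range x) = ⊤) {y : Fin n → L}
    (hy : IsTranscendenceBasis ℂ y) (φ : L →ₐ[ℂ] FractionRing (MvPolynomial (Fin N) ℂ)) :
    Nonempty (L →ₐ[ℂ] FractionRing (MvPolynomial (Fin n) ℂ)) := by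
  classical
  obtain ⟨F, hF, hFA, hFC, hFT, hFF, φ', hzb⟩ : ∃ (F : Type) (_ : Field F)
    (_ : Algebra (MvPolynomial (Fin N) ℂ) F) (_ : Algebra ℂ F)
    (_ : IsScalarTower ℂ (MvPolynomial (Fin N) ℂ) F)
    (_ : IsFractionRing (MvPolynomial (Fin N) ℂ) F) (_ : L →ₐ[ℂ] F),
    IsTranscendenceBasis ℂ fun i : Fin N => algebraMap (MvPolynomial (Fin N) ℂ) F (X i) := by
    refine ⟨FractionRing (MvPolynomial (Fin N) ℂ), inferInstance, inferInstance, inferInstance,
      inferInstance, inferInstance, φ, ?_⟩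
    have h2 : Algebra.IsAlgebraic (MvPolynomial (Fin N) ℂ)
        (FractionRing (MvPolynomial (Fin N) ℂ)) :=
      IsLocalization.isAlgebraic _ (nonZeroDivisors (MvPolynomial (Fin N) ℂ))
    exact (IsTranscendenceBasis.mvPolynomial (Fin N) ℂ).algebraMap_comp
  clear φ
  -- all coordinates
  obtain ⟨w, hw⟩ : ∃ w : Fin (M + n) → L, w = Fin.append x y := ⟨_, rfl⟩
  have hwx : ∀ i, w (Fin.castAdd n i) = x i := fun i => by rw [hw, Fin.append_left]
  have hwy : ∀ i, w (Fin.natAdd M i) = y i := fun i => by rw [hw, Fin.append_right]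
  have hwtop : IntermediateField.adjoin ℂ (Set.range w) = ⊤ := by
    rw [eq_top_iff, ← hx]
    apply IntermediateField.adjoin.mono
    rintro _ ⟨i, rfl⟩
    exact ⟨_, hwx i⟩
  have hyφ : AlgebraicIndependent ℂ (fun i => φ' (y i)) := hy.1.map' φ'.injective
  obtain ⟨J, hJc, hb⟩ := exists_J hzb hyφ
  obtain ⟨b, hbdef⟩ : ∃ b : Fin n ⊕ {j : Fin N // j ∉ J} → F, b = Sum.elim (fun i => φ' (y i))
    fun j : {j : Fin N // j ∉ J} => algebraMap (MvPolynomial (Fin N) ℂ) F (X j) := ⟨_, rfl⟩
  rw [← hbdef] at hb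
  have hzne : ∀ j, algebraMap (MvPolynomial (Fin N) ℂ) F (X j) ≠ 0 := fun j => hzb.1.ne_zero j
  choose Q hQ0 hQ using fun j => rel hb _ (hzne j)
  obtain ⟨W, hW⟩ : ∃ W : Fin (M + n) ⊕ Fin N → F, W = Sum.elim (fun i => φ' (w i))
    (fun j => algebraMap (MvPolynomial (Fin N) ℂ) F (X j)) := ⟨_, rfl⟩
  obtain ⟨ρ, hρ⟩ : ∃ ρ : Fin n ⊕ {j : Fin N // j ∉ J} → Fin (M + n) ⊕ Fin N,
    ρ = Sum.map (Fin.natAdd M) Subtype.val := ⟨_, rfl⟩
  have hWρ : (fun i => W (ρ i)) = b := by
    funext i
    rcases i with i | i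
    · simp [hW, hρ, hbdef, hwy]
    · simp [hW, hρ, hbdef]
  obtain ⟨g, hg0, hg⟩ := spec (A := MvPolynomial (Fin N) ℂ) W
    (fun j : Fin N => rename ρ ((Q j).coeff 0)) (fun j => by
      rw [aeval_rename]
      change aeval (fun i => W (ρ i)) ((Q j).coeff 0) ≠ 0
      rw [hWρ]
      intro h0
      apply hQ0 j
      exact (map_eq_zero_iff _ hb.1).1 h0)
  obtain ⟨v, hv⟩ := exists_pt hg0
  let e : {j : Fin N // j ∈ J} ≃ Fin n := J.equivFinOfCardEq hJc
  obtain ⟨s0, hs0⟩ : ∃ s0 : MvPolynomial (Fin N) ℂ →ₐ[ℂ] MvPolynomial (Fin n) ℂ,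
    s0 = aeval (fun j => if h : j ∈ J then X (e ⟨j, h⟩) else C (v j)) := ⟨_, rfl⟩
  have hs0v : ∀ p, aeval (fun i => v (e.symm i).1) (s0 p) = eval v p := by
    intro p
    rw [hs0, MvPolynomial.comp_aeval_apply (φ := aeval fun i => v (e.symm i).1),
      ← MvPolynomial.coe_aeval_eq_eval]
    have h1 : (fun j => aeval (fun i => v (e.symm i).1) (if h : j ∈ J then
        (X (e ⟨j, h⟩) : MvPolynomial (Fin n) ℂ) else C (v j))) = v := by
      funext j
      by_cases h : j ∈ J
      · rw [dif_pos h, aeval_X, e.symm_apply_apply]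
      · rw [dif_neg h, aeval_C]
        rfl
    rw [h1]
    rfl
  obtain ⟨V, hV1, hV2, hV3⟩ := hg (FractionRing (MvPolynomial (Fin n) ℂ))
    ((IsScalarTower.toAlgHom ℂ (MvPolynomial (Fin n) ℂ)
      (FractionRing (MvPolynomial (Fin n) ℂ))).comp s0) (by
      intro h0
      have h1 : s0 g = 0 := by
        apply IsFractionRing.injective (MvPolynomial (Fin n) ℂ)
          (FractionRing (MvPolynomial (Fin n) ℂ))
        rw [map_zero]
        exact h0
      apply hv
      rw [← hs0v, h1, map_zero])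
  have hVz : ∀ j, V (Sum.inr j) = algebraMap (MvPolynomial (Fin n) ℂ)
      (FractionRing (MvPolynomial (Fin n) ℂ)) (s0 (X j)) := fun j =>
    hV1 (Sum.inr j) (X j) (by rw [hW]; rfl)
  have hind : AlgebraicIndependent ℂ fun i => V (Sum.inl (Fin.natAdd M i)) := by
    apply indep
    intro i
    obtain ⟨j, hj⟩ : ∃ j, e j = i := ⟨e.symm i, e.apply_symm_apply i⟩
    have h1 : algebraMap (MvPolynomial (Fin n) ℂ) (FractionRing (MvPolynomial (Fin n) ℂ)) (X i) =
        V (Sum.inr j.1) := by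
      rw [hVz, hs0, aeval_X, dif_pos j.2, ← hj]
    rw [h1]
    obtain ⟨θ, hθ⟩ : ∃ θ : MvPolynomial (Fin n ⊕ {j : Fin N // j ∉ J}) ℂ →ₐ[ℂ]
      Algebra.adjoin ℂ (Set.range fun i => V (Sum.inl (Fin.natAdd M i))),
      θ = aeval (Sum.elim (fun i => ⟨V (Sum.inl (Fin.natAdd M i)),
        Algebra.subset_adjoin ⟨i, rfl⟩⟩) fun j => algebraMap ℂ _ (v j.1)) := ⟨_, rfl⟩
    have hθv : ∀ p, (θ p : FractionRing (MvPolynomial (Fin n) ℂ)) =
        aeval (fun i => V (ρ i)) p := by
      intro p
      have h3 := MvPolynomial.comp_aeval_apply (φ := (Algebra.adjoin ℂ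
        (Set.range fun i => V (Sum.inl (Fin.natAdd M i)))).val) (Sum.elim (fun i =>
        ⟨V (Sum.inl (Fin.natAdd M i)), Algebra.subset_adjoin ⟨i, rfl⟩⟩)
        fun j : {j : Fin N // j ∉ J} => algebraMap ℂ _ (v j.1)) p
      rw [hθ]
      refine h3.trans ?_
      congr 2
      funext k
      rcases k with k | k
      · rw [hρ]
        rfl
      · rw [hρ]
        change _ = V (Sum.inr k.1)
        rw [hVz, hs0, aeval_X, dif_neg k.2, ← MvPolynomial.algebraMap_eq,
          ← IsScalarTower.algebraMap_apply]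
        rfl
    refine ⟨(Q j.1).map (θ : _ →+* _), ?_, ?_⟩
    · intro h0
      have h3 := congrArg (fun r => Polynomial.coeff r 0) h0
      simp only [Polynomial.coeff_map, Polynomial.coeff_zero] at h3
      apply hV3 j.1
      rw [aeval_rename]
      change aeval (fun i => V (ρ i)) ((Q j.1).coeff 0) = 0
      rw [← hθv]
      have h4 : θ ((Q j.1).coeff 0) = 0 := h3
      rw [h4]
      rfl
    · have h3 := hV2 (Polynomial.eval₂ ((rename ρ : MvPolynomial _ ℂ →ₐ[ℂ] MvPolynomial _ ℂ) :
        MvPolynomial _ ℂ →+* MvPolynomial _ ℂ) (X (Sum.inr j.1)) (Q j.1)) (by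
          rw [comp_eval₂, hWρ, aeval_X, hW]
          exact hQ j.1)
      rw [comp_eval₂, aeval_X] at h3
      rw [Polynomial.aeval_def, Polynomial.eval₂_map, ← h3]
      congr 1
      ext a
      · exact hθv _
      · exact hθv _
  refine Pool.Agent.R867.Mov.embed hwtop (c := fun i => V (Sum.inl i)) ?_ ?_
  · intro P hP
    have h3 := hV2 (rename Sum.inl P) (by
      rw [aeval_rename]
      have h4 := MvPolynomial.comp_aeval_apply (φ := φ') w P
      rw [hP, map_zero] at h4
      rw [h4]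
      congr 1
      rw [hW]
      rfl)
    rw [aeval_rename] at h3
    exact h3
  · intro P hP
    by_contra hne
    obtain ⟨R, hR0, hR⟩ := rel hy (aeval w P) hne
    have h3 := hV2 (rename Sum.inl (Polynomial.eval₂ ((rename (Fin.natAdd M) :
      MvPolynomial (Fin n) ℂ →ₐ[ℂ] MvPolynomial (Fin (M + n)) ℂ) :
      MvPolynomial (Fin n) ℂ →+* MvPolynomial (Fin (M + n)) ℂ) P R)) (by
        rw [aeval_rename]
        have h4 := MvPolynomial.comp_aeval_apply (φ := φ') w (Polynomial.eval₂ ((rename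
          (Fin.natAdd M) : MvPolynomial (Fin n) ℂ →ₐ[ℂ] MvPolynomial (Fin (M + n)) ℂ) :
          MvPolynomial (Fin n) ℂ →+* MvPolynomial (Fin (M + n)) ℂ) P R)
        rw [comp_eval₂] at h4
        simp only [hwy] at h4
        rw [hR, map_zero] at h4
        rw [h4]
        congr 1
        rw [hW]
        rfl)
    rw [aeval_rename, comp_eval₂] at h3
    have h5 : aeval (V ∘ Sum.inl) P = 0 := hP
    rw [h5, Polynomial.eval₂_at_zero] at h3
    apply hR0
    exact (map_eq_zero_iff _ hind).1 h3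

end Pool.Agent.Helper44K9.RN.Cut

namespace Pool.Agent.Helper44K9.RN

/-- **A variety which is dominated by a projective space is unirational.** -/
theorem stCut : StCut := by
  classical
  intro L _ _ _ n N hn φ
  obtain ⟨s, hs⟩ := IntermediateField.fg_top (F := ℂ) (E := L)
  obtain ⟨y, hy⟩ : ∃ y : Fin n → L, IsTranscendenceBasis ℂ y := by
    obtain ⟨z, E, hz, -⟩ := Pool.Agent.Y172.exists_crd (k := ℂ) (K := L) hn
    exact ⟨z, hz⟩
  have hx : IntermediateField.adjoin ℂ (Set.range fun i : Fin s.card => (s.equivFin.symm i).1)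
      = ⊤ := by
    rw [← hs]
    congr 1
    ext a
    constructor
    · rintro ⟨i, rfl⟩
      exact (s.equivFin.symm i).2
    · intro ha
      refine ⟨s.equivFin ⟨a, ha⟩, ?_⟩
      change (s.equivFin.symm (s.equivFin ⟨a, ha⟩)).1 = a
      rw [Equiv.symm_apply_apply]
  exact Cut.core hx hy φ

end Pool.Agent.Helper44K9.RN
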